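import Mathlib

/-!
# Boxes in dense subsets of a grid
-/

set_option autoImplicit false

namespace Pool.Agent.Helper939_Con

open Finset

/-- the sum over `Fin (d+1) → α` in terms of the first coordinate -/
theorem sum_cons {d K : ℕ} (F : (Fin (d + 1) → Fin K) → ℝ) :
    ∑ x, F x = ∑ y : Fin d → Fin K, ∑ k : Fin K, F (Fin.cons k y) := by
  rw [Finset.sum_comm, ← Fintype.sum_prod_type']
  exact ((Fin.consEquiv (fun _ : Fin (d + 1) => Fin K)).sum_comp F).symm

/-- a pair of levels with a dense common part -/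
theorem exists_pair {d K : ℕ} (D : ℕ) (hD : 1 ≤ D) (hK : 2 * D < K)
    (S : Finset (Fin (d + 1) → Fin K)) (hS : K ^ (d + 1) ≤ D * S.card) :
    ∃ k l : Fin K, k < l ∧ K ^ d ≤ (2 * D ^ 2) *
      (univ.filter (fun y : Fin d → Fin K => Fin.cons k y ∈ S ∧ Fin.cons l y ∈ S)).card := by
  classical
  by_contra hcon
  push Not at hcon
  set h : Fin K → (Fin d → Fin K) → ℝ := fun k y => if Fin.cons k y ∈ S then 1 else 0 with hh
  set P : ℝ := (K : ℝ) ^ d with hP
  have hKpos : (0 : ℝ) < K := by
    have : 0 < K := by omega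
    exact_mod_cast this
  have hPpos : 0 < P := by positivity
  have hDpos : (1 : ℝ) ≤ D := by exact_mod_cast hD
  set s : ℝ := ∑ y : Fin d → Fin K, ∑ k : Fin K, h k y with hs
  have hsS : s = S.card := by
    have h1 := sum_cons (fun x : Fin (d + 1) → Fin K => if x ∈ S then (1 : ℝ) else 0)
    rw [hs, ← h1]
    simp
  have hsP : P * K ≤ D * s := by
    rw [hsS, hP]
    have : ((K ^ (d + 1) : ℕ) : ℝ) ≤ ((D * S.card : ℕ) : ℝ) := by exact_mod_cast hS
    push_cast at this
    rw [pow_succ] at this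
    exact this
  have hspos : 0 < s := by
    by_contra hneg
    push Not at hneg
    have h1 : (D : ℝ) * s ≤ 0 := mul_nonpos_of_nonneg_of_nonpos (by linarith) hneg
    have h2 : 0 < P * K := by positivity
    linarith
  -- the second moment
  set Q : ℝ := ∑ y : Fin d → Fin K, (∑ k : Fin K, h k y) ^ 2 with hQ
  have hCS : s ^ 2 ≤ P * Q := by
    have h1 := sq_sum_le_card_mul_sum_sq (s := (univ : Finset (Fin d → Fin K)))
      (f := fun y => ∑ k : Fin K, h k y)
    have h2 : ((univ : Finset (Fin d → Fin K)).card : ℝ) = P := by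
      rw [Finset.card_univ, Fintype.card_fun, Fintype.card_fin, Fintype.card_fin, hP]
      push_cast
      rfl
    rw [h2] at h1
    exact h1
  have hN : ∀ k l : Fin K, k < l → (2 * (D : ℝ) ^ 2) * ∑ y, h k y * h l y ≤ P := by
    intro k l hkl
    have h1 := hcon k l hkl
    have h2 : ∑ y, h k y * h l y = ((univ.filter (fun y : Fin d → Fin K =>
        Fin.cons k y ∈ S ∧ Fin.cons l y ∈ S)).card : ℝ) := by
      rw [Finset.card_filter]
      push_cast
      refine Finset.sum_congr rfl (fun y _ => ?_)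
      simp only [hh]
      by_cases ha : (Fin.cons k y : Fin (d + 1) → Fin K) ∈ S <;>
        by_cases hb : (Fin.cons l y : Fin (d + 1) → Fin K) ∈ S <;> simp [ha, hb]
    rw [h2, hP]
    have h3 : (((2 * D ^ 2) * (univ.filter (fun y : Fin d → Fin K =>
        Fin.cons k y ∈ S ∧ Fin.cons l y ∈ S)).card : ℕ) : ℝ) ≤ ((K ^ d : ℕ) : ℝ) := by
      exact_mod_cast h1.le
    push_cast at h3
    exact h3
  have hN' : ∀ k l : Fin K, (2 * (D : ℝ) ^ 2) * ∑ y, h k y * h l y ≤
      (if k = l then (2 * (D : ℝ) ^ 2) * ∑ y, h k y else 0) + P := by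
    intro k l
    rcases lt_trichotomy k l with hkl | hkl | hkl
    · rw [if_neg hkl.ne, zero_add]
      exact hN k l hkl
    · subst hkl
      rw [if_pos rfl]
      have h1 : ∀ y, h k y * h k y = h k y := by
        intro y
        simp only [hh]
        split_ifs <;> simp
      simp only [h1]
      linarith
    · rw [if_neg hkl.ne', zero_add]
      have := hN l k hkl
      simpa only [mul_comm] using this
  have hQ2 : (2 * (D : ℝ) ^ 2) * Q ≤ (2 * (D : ℝ) ^ 2) * s + K ^ 2 * P := by
    have h1 : Q = ∑ k : Fin K, ∑ l : Fin K, ∑ y, h k y * h l y := by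
      rw [hQ]
      have : ∀ y : Fin d → Fin K, (∑ k : Fin K, h k y) ^ 2 =
          ∑ k : Fin K, ∑ l : Fin K, h k y * h l y := by
        intro y
        rw [sq, Finset.sum_mul_sum]
      simp only [this]
      rw [Finset.sum_comm]
      refine Finset.sum_congr rfl (fun k _ => ?_)
      rw [Finset.sum_comm]
    rw [h1, Finset.mul_sum]
    calc ∑ k : Fin K, (2 * (D : ℝ) ^ 2) * ∑ l : Fin K, ∑ y, h k y * h l y
        = ∑ k : Fin K, ∑ l : Fin K, (2 * (D : ℝ) ^ 2) * ∑ y, h k y * h l y := by
          refine Finset.sum_congr rfl (fun k _ => ?_)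
          rw [Finset.mul_sum]
      _ ≤ ∑ k : Fin K, ∑ l : Fin K,
          ((if k = l then (2 * (D : ℝ) ^ 2) * ∑ y, h k y else 0) + P) :=
          Finset.sum_le_sum (fun k _ => Finset.sum_le_sum (fun l _ => hN' k l))
      _ = (2 * (D : ℝ) ^ 2) * s + K ^ 2 * P := by
          simp only [Finset.sum_add_distrib, Finset.sum_ite_eq, Finset.mem_univ, if_true,
            Finset.sum_const, Finset.card_univ, Fintype.card_fin, nsmul_eq_mul]
          rw [← Finset.mul_sum, hs, Finset.sum_comm]
          ring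
  -- contradiction
  have h1 : (2 * (D : ℝ) ^ 2) * s ^ 2 ≤ P * ((2 * (D : ℝ) ^ 2) * s + K ^ 2 * P) := by
    calc (2 * (D : ℝ) ^ 2) * s ^ 2 ≤ (2 * (D : ℝ) ^ 2) * (P * Q) := by gcongr
      _ = P * ((2 * (D : ℝ) ^ 2) * Q) := by ring
      _ ≤ _ := by gcongr
  have h2 : (P * K) ^ 2 ≤ (D * s) ^ 2 := by gcongr
  have h3 : (D : ℝ) ^ 2 * s ^ 2 ≤ P * (2 * (D : ℝ) ^ 2) * s := by nlinarith
  have h4 : s ≤ 2 * P := by
    have h5 : 0 < (D : ℝ) ^ 2 * s := by positivity
    have h6 : (D : ℝ) ^ 2 * s * s ≤ (D : ℝ) ^ 2 * s * (2 * P) := by nlinarith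
    exact le_of_mul_le_mul_left h6 h5
  have h5 : P * K ≤ P * (2 * D) := by nlinarith
  have h6 : (K : ℝ) ≤ 2 * D := le_of_mul_le_mul_left h5 hPpos
  have h7 : K ≤ 2 * D := by exact_mod_cast h6
  omega

/-- **Box lemma.** A subset of density `1 / D` of the grid `[K]^d`, `K ≥ (2 D) ^ (2 ^ d)`, contains all
vertices of a box. -/
theorem box (K : ℕ) : ∀ (d D : ℕ) (S : Finset (Fin d → Fin K)), 1 ≤ D → (2 * D) ^ (2 ^ d) ≤ K →
    K ^ d ≤ D * S.card → ∃ a b : Fin d → Fin K, (∀ i, a i < b i) ∧
      ∀ ε : Fin d → Bool, (fun i => if ε i then b i else a i) ∈ S := by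
  classical
  intro d
  induction d with
  | zero =>
    intro D S hD hK hS
    have hS0 : S.Nonempty := by
      rw [← Finset.card_pos]
      by_contra h
      have h0 : S.card = 0 := by omega
      rw [h0] at hS
      simp at hS
    obtain ⟨x, hx⟩ := hS0
    refine ⟨x, x, fun i => i.elim0, fun ε => ?_⟩
    have : (fun i => if ε i then x i else x i) = x := by
      funext i
      exact i.elim0
    rw [this]
    exact hx
  | succ d ih =>
    intro D S hD hK hS
    have h2D : 2 * D < K := by
      refine lt_of_lt_of_le ?_ hK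
      calc 2 * D = (2 * D) ^ 1 := (pow_one _).symm
        _ < (2 * D) ^ (2 ^ (d + 1)) :=
          Nat.pow_lt_pow_right (by omega) (Nat.one_lt_two_pow (by omega))
    obtain ⟨k, l, hkl, hkS⟩ := exists_pair D hD h2D S hS
    obtain ⟨a, b, hab, hin⟩ := ih (2 * D ^ 2) _ (by nlinarith) (by
      calc (2 * (2 * D ^ 2)) ^ (2 ^ d) = (2 * D) ^ (2 ^ (d + 1)) := by
            rw [pow_succ 2 d, mul_comm (2 ^ d) 2, pow_mul]
            congr 1
            ring
        _ ≤ K := hK) hkS
    refine ⟨Fin.cons k a, Fin.cons l b, ?_, ?_⟩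
    · intro i
      refine Fin.cases ?_ (fun j => ?_) i
      · simpa using hkl
      · simpa using hab j
    · intro ε
      have h1 := hin (fun i => ε i.succ)
      rw [Finset.mem_filter] at h1
      have h2 : (fun i => if ε i then (Fin.cons l b : Fin (d + 1) → Fin K) i
          else (Fin.cons k a : Fin (d + 1) → Fin K) i) =
          Fin.cons (if ε 0 then l else k) (fun i => if ε i.succ then b i else a i) := by
        funext i
        refine Fin.cases ?_ (fun j => ?_) i
        · simp
        · simp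
      rw [h2]
      by_cases h0 : ε 0 = true
      · rw [if_pos h0]
        exact h1.2.2
      · rw [if_neg h0]
        exact h1.2.1

end Pool.Agent.Helper939_Con
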