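import Mathlib
import Pool.Agent.Helper939_Con.Box

/-!
# Colourings computed by conservative rules

Words over an alphabet `B`, an `r`-set of words is coloured by an arbitrary function of the word that a
rule computes from them coordinatewise, choosing in every coordinate one of the `r` letters.
-/

set_option autoImplicit false

namespace Pool.Agent.Helper939_Con

open Finset

section Words

variable {m d K : ℕ} {B : Type}

open Classical in
/-- the word of a grid point -/
noncomputable def word (b0 b1 : B) (ι : Fin d × Fin K → Fin m) (p : Fin d → Fin K) : Fin m → B :=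
  fun j => if ∃ i k, ι (i, k) = j ∧ k < p i then b1 else b0

theorem word_apply {b0 b1 : B} {ι : Fin d × Fin K → Fin m} (hι : Function.Injective ι)
    (p : Fin d → Fin K) (i : Fin d) (k : Fin K) :
    word b0 b1 ι p (ι (i, k)) = if k < p i then b1 else b0 := by
  unfold word
  refine if_congr ?_ rfl rfl
  constructor
  · rintro ⟨i', k', h, hk⟩
    have := hι h
    simp only [Prod.mk.injEq] at this
    rw [← this.1, ← this.2]
    exact hk
  · intro h
    exact ⟨i, k, rfl, h⟩

theorem word_apply_not {b0 b1 : B} {ι : Fin d × Fin K → Fin m} (p : Fin d → Fin K) (j : Fin m)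
    (hj : ∀ i k, ι (i, k) ≠ j) : word b0 b1 ι p j = b0 := by
  unfold word
  rw [if_neg]
  rintro ⟨i, k, h, _⟩
  exact hj i k h

end Words

/-- corners of a box -/
def corner {d K : ℕ} (a b : Fin d → Fin K) (ε : Fin d → Bool) : Fin d → Fin K :=
  fun i => if ε i then b i else a i

theorem corner_word_injective {m d K : ℕ} {B : Type} {b0 b1 : B} (hb : b0 ≠ b1)
    {ι : Fin d × Fin K → Fin m} (hι : Function.Injective ι) {a b : Fin d → Fin K}
    (hab : ∀ i, a i < b i) :
    Function.Injective (fun ε : Fin d → Bool => word b0 b1 ι (corner a b ε)) := by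
  intro ε ε' h
  funext i
  have h1 := congrFun h (ι (i, a i))
  simp only [word_apply hι, corner] at h1
  rcases hε : ε i with _ | _ <;> rcases hε' : ε' i with _ | _
  · rfl
  · simp [hε, hε', hab i] at h1
    exact absurd h1 hb
  · simp [hε, hε', hab i] at h1
    exact absurd h1.symm hb
  · rfl

/-- the two-letter case -/
theorem core {r k q m d K : ℕ} {B : Type} {b0 b1 : B} (hb : b0 ≠ b1)
    (g : Fin k → Fin m → (Fin r → B) → B) (hg : ∀ t j y, ∃ i, g t j y = y i)
    (f : Fin k → (Fin m → B) → Fin q)
    (hK : (2 * q ^ k) ^ (2 ^ d) ≤ K) (hm : 2 ^ (k * 2 ^ r) * (d * K) ≤ m) :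
    ∃ (X : Finset (Fin m → B)) (c : Fin k → Fin q), X.card = 2 ^ d ∧
      ∀ t, ∀ x : Fin r → Fin m → B, (∀ i, x i ∈ X) →
        f t (fun j => g t j (fun i => x i j)) = c t := by
  classical
  -- the colours
  have hcol : Fintype.card (Fin k → Fin q) = q ^ k := by
    rw [Fintype.card_fun, Fintype.card_fin, Fintype.card_fin]
  have hne : Nonempty (Fin k → Fin q) := ⟨fun t => f t (fun _ => b0)⟩
  have hq : 0 < q ^ k := by
    rw [← hcol]
    exact Fintype.card_pos
  have hKpos : 0 < K := lt_of_lt_of_le (by positivity) hK
  -- the types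
  have hex : ∀ (j : Fin m) (t : Fin k) (y : Fin r → Bool), ∃ c : Bool,
      g t j (fun i => if y i then b1 else b0) = if c then b1 else b0 := by
    intro j t y
    obtain ⟨i, hi⟩ := hg t j (fun i => if y i then b1 else b0)
    exact ⟨y i, hi⟩
  choose τ hτ using hex
  have hcardT : Fintype.card (Fin k → (Fin r → Bool) → Bool) = 2 ^ (k * 2 ^ r) := by
    simp only [Fintype.card_fun, Fintype.card_fin, Fintype.card_bool]
    rw [← pow_mul, mul_comm]
  obtain ⟨τ0, hτ0⟩ := Fintype.exists_le_card_fiber_of_mul_le_card (f := τ) (n := d * K) (by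
    rw [hcardT, Fintype.card_fin]
    exact hm)
  -- the coordinates
  obtain ⟨e⟩ : Nonempty ((Fin d × Fin K) ↪ {j : Fin m // τ j = τ0}) := by
    apply Function.Embedding.nonempty_of_card_le
    rw [Fintype.card_prod, Fintype.card_fin, Fintype.card_fin, Fintype.card_subtype]
    exact hτ0
  set ι : Fin d × Fin K → Fin m := fun p => (e p).1 with hιdef
  have hι : Function.Injective ι := fun p p' h => e.injective (Subtype.ext h)
  have hιτ : ∀ p, τ (ι p) = τ0 := fun p => (e p).2
  -- the colour class
  obtain ⟨c, hc⟩ : ∃ c : Fin k → Fin q, K ^ d ≤ q ^ k *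
      (univ.filter (fun p : Fin d → Fin K => (fun t => f t (word b0 b1 ι p)) = c)).card := by
    by_contra hcon
    push Not at hcon
    have h1 := Finset.card_eq_sum_card_fiberwise
      (f := fun p : Fin d → Fin K => (fun t => f t (word b0 b1 ι p)))
      (s := univ) (t := univ) (by simp)
    rw [Finset.card_univ, Fintype.card_fun, Fintype.card_fin, Fintype.card_fin] at h1
    have h2 : ∑ c : Fin k → Fin q, q ^ k * (univ.filter
        (fun p : Fin d → Fin K => (fun t => f t (word b0 b1 ι p)) = c)).card <
        ∑ c : Fin k → Fin q, K ^ d := by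
      refine Finset.sum_lt_sum_of_nonempty ?_ (fun c _ => hcon c)
      obtain ⟨c⟩ := hne
      exact ⟨c, Finset.mem_univ _⟩
    rw [← Finset.mul_sum, ← h1, Finset.sum_const, Finset.card_univ, hcol, smul_eq_mul] at h2
    exact lt_irrefl _ h2
  obtain ⟨a, b, hab, hbox⟩ := box K d (q ^ k) _ hq hK hc
  refine ⟨univ.image (fun ε : Fin d → Bool => word b0 b1 ι (corner a b ε)), c, ?_, ?_⟩
  · rw [Finset.card_image_of_injective _ (corner_word_injective hb hι hab)]
    simp
  · intro u x hx
    have hx' : ∀ t, ∃ ε : Fin d → Bool, word b0 b1 ι (corner a b ε) = x t := by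
      intro t
      have := hx t
      rw [Finset.mem_image] at this
      obtain ⟨ε, _, hε⟩ := this
      exact ⟨ε, hε⟩
    choose ε hε using hx'
    have hconst : ∀ (j : Fin m) (v : Bool), τ j u (fun _ => v) = v := by
      intro j v
      obtain ⟨i, hi⟩ := hg u j (fun _ => if v then b1 else b0)
      have h1 := hτ j u (fun _ => v)
      rw [hi] at h1
      rcases v with _ | _ <;> rcases h : τ j u (fun _ => _) with _ | _
      · rfl
      · rw [h] at h1
        simp at h1
        exact absurd h1 hb
      · rw [h] at h1
        simp at h1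
        exact absurd h1.symm hb
      · rfl
    have hw : (fun j => g u j (fun i => x i j)) =
        word b0 b1 ι (corner a b (fun i => τ0 u (fun t => ε t i))) := by
      funext j
      by_cases hj : ∃ i k, ι (i, k) = j
      · obtain ⟨i, l, rfl⟩ := hj
        rw [word_apply hι]
        have h1 : (fun t => x t (ι (i, l))) =
            fun t => if (decide (l < corner a b (ε t) i)) then b1 else b0 := by
          funext t
          rw [← hε t, word_apply hι]
          by_cases h : l < corner a b (ε t) i
          · rw [if_pos h, if_pos (by simpa using h)]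
          · rw [if_neg h, if_neg (by simpa using h)]
        rw [h1, hτ, hιτ]
        refine if_congr ?_ rfl rfl
        rcases lt_or_ge l (a i) with hka | hka
        · have h2 : ∀ ε' : Fin d → Bool, l < corner a b ε' i := by
            intro ε'
            unfold corner
            split_ifs
            · exact hka.trans (hab i)
            · exact hka
          have h3 : (fun t => decide (l < corner a b (ε t) i)) = fun _ => true := by
            funext t
            simp [h2]
          rw [h3, ← hιτ (i, l), hconst]
          simp [h2]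
        · rcases lt_or_ge l (b i) with hkb | hkb
          · have h2 : ∀ ε' : Fin d → Bool, (l < corner a b ε' i ↔ ε' i = true) := by
              intro ε'
              unfold corner
              split_ifs with h
              · simp [h, hkb]
              · simp [h, not_lt.2 hka]
            have h3 : (fun t => decide (l < corner a b (ε t) i)) = fun t => ε t i := by
              funext t
              simp [h2]
            rw [h3, h2]
          · have h2 : ∀ ε' : Fin d → Bool, ¬ l < corner a b ε' i := by
              intro ε'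
              unfold corner
              split_ifs
              · exact not_lt.2 hkb
              · exact not_lt.2 hka
            have h3 : (fun t => decide (l < corner a b (ε t) i)) = fun _ => false := by
              funext t
              simp [h2]
            rw [h3, ← hιτ (i, l), hconst]
            simp [h2]
      · push Not at hj
        rw [word_apply_not _ j hj]
        have h1 : (fun t => x t j) = fun t => if false then b1 else b0 := by
          funext t
          rw [← hε t, word_apply_not _ j hj]
          rfl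
        rw [h1, hτ, hconst]
        rfl
    rw [hw]
    have h4 := hbox (fun i => τ0 u (fun t => ε t i))
    rw [Finset.mem_filter] at h4
    exact congrFun h4.2 u

/-- the case of a large alphabet -/
theorem large {r k q m n : ℕ} {B : Type} [Fintype B] (b0 : B) (j0 : Fin m)
    (g : Fin k → Fin m → (Fin r → B) → B) (hg : ∀ t j y, ∃ i, g t j y = y i)
    (f : Fin k → (Fin m → B) → Fin q) (hB : q ^ k * n ≤ Fintype.card B) :
    ∃ (X : Finset (Fin m → B)) (c : Fin k → Fin q), X.card = n ∧
      ∀ t, ∀ x : Fin r → Fin m → B, (∀ i, x i ∈ X) →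
        f t (fun j => g t j (fun i => x i j)) = c t := by
  classical
  set w : B → Fin m → B := fun y j => if j = j0 then y else b0 with hw
  have hwinj : Function.Injective w := by
    intro y y' h
    have := congrFun h j0
    simpa [hw] using this
  have hne : Nonempty (Fin k → Fin q) := ⟨fun t => f t (fun _ => b0)⟩
  obtain ⟨c, hc⟩ := Fintype.exists_le_card_fiber_of_mul_le_card
    (f := fun y : B => fun t => f t (w y))
    (n := n) (by rw [Fintype.card_fun, Fintype.card_fin, Fintype.card_fin]; exact hB)
  obtain ⟨Y, hY, hYn⟩ := Finset.exists_subset_card_eq hc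
  refine ⟨Y.image w, c, ?_, ?_⟩
  · rw [Finset.card_image_of_injective _ hwinj, hYn]
  · intro u x hx
    have hx' : ∀ t, ∃ y : B, y ∈ Y ∧ w y = x t := by
      intro t
      have := hx t
      rw [Finset.mem_image] at this
      exact this
    choose y hyY hy using hx'
    obtain ⟨i0, hi0⟩ := hg u j0 y
    have h1 : (fun j => g u j (fun i => x i j)) = w (y i0) := by
      funext j
      by_cases hj : j = j0
      · subst hj
        have h2 : (fun i => x i j) = y := by
          funext i
          rw [← hy i]
          simp [hw]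
        rw [h2, hi0]
        simp [hw]
      · obtain ⟨i1, hi1⟩ := hg u j (fun i => x i j)
        rw [hi1, ← hy i1]
        simp [hw, hj]
    rw [h1]
    have h3 := hY (hyY i0)
    rw [Finset.mem_filter] at h3
    exact congrFun h3.2 u

/-- the numbers -/
theorem numbers {q n d K T : ℕ} (hq : 1 ≤ q) (hn : 1 ≤ n) (hd : d ≤ n) (h2d : 2 ^ d ≤ 2 * n)
    (hK : K = (2 * q) ^ (2 ^ d)) :
    q * n * (2 ^ T * (d * K)) ≤ 2 ^ (T + (3 * q + 2) * n) := by
  have h1 : q ≤ 2 ^ q := Nat.lt_two_pow_self.le
  have h2 : n ≤ 2 ^ n := Nat.lt_two_pow_self.le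
  have h3 : 2 * q ≤ 2 ^ q := by
    have : q - 1 < 2 ^ (q - 1) := Nat.lt_two_pow_self
    have h4 : 2 ^ q = 2 * 2 ^ (q - 1) := by
      rw [← pow_succ']
      congr 1
      omega
    omega
  have h4 : K ≤ 2 ^ (q * (2 * n)) := by
    rw [hK, pow_mul]
    calc (2 * q) ^ (2 ^ d) ≤ (2 ^ q) ^ (2 ^ d) := Nat.pow_le_pow_left h3 _
      _ ≤ (2 ^ q) ^ (2 * n) := Nat.pow_le_pow_right (by positivity) h2d
  calc q * n * (2 ^ T * (d * K))
      ≤ 2 ^ q * 2 ^ n * (2 ^ T * (2 ^ n * 2 ^ (q * (2 * n)))) := by
        gcongr
        exact hd.trans h2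
    _ = 2 ^ (q + n + (T + (n + q * (2 * n)))) := by
        rw [pow_add 2 (q + n), pow_add 2 q n, pow_add 2 T, pow_add 2 n]
    _ ≤ 2 ^ (T + (3 * q + 2) * n) := by
        apply Nat.pow_le_pow_right (by norm_num)
        nlinarith

/-- the main statement, for the computed words -/
theorem main {r k q n m : ℕ} {B : Type} [Fintype B]
    (g : Fin k → Fin m → (Fin r → B) → B) (hg : ∀ t j y, ∃ i, g t j y = y i)
    (f : Fin k → (Fin m → B) → Fin q) (hn : 1 ≤ n)
    (hN : 2 ^ 2 ^ (k * 2 ^ r + (3 * q ^ k + 2) * n) ≤ Fintype.card B ^ m) :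
    ∃ (X : Finset (Fin m → B)) (c : Fin k → Fin q), X.card = n ∧
      ∀ t, ∀ x : Fin r → Fin m → B, (∀ i, x i ∈ X) →
        f t (fun j => g t j (fun i => x i j)) = c t := by
  classical
  set E : ℕ := k * 2 ^ r + (3 * q ^ k + 2) * n with hE
  have h1 : 1 < Fintype.card B ^ m := by
    refine lt_of_lt_of_le ?_ hN
    exact Nat.one_lt_two_pow (by positivity)
  have hm : m ≠ 0 := by
    rintro rfl
    simp at h1
  have hB : 1 < Fintype.card B := by
    by_contra h
    push Not at h
    have : Fintype.card B ^ m ≤ 1 := by
      calc Fintype.card B ^ m ≤ 1 ^ m := Nat.pow_le_pow_left h m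
        _ = 1 := one_pow m
    omega
  obtain ⟨b0, b1, hb⟩ := Fintype.exists_pair_of_one_lt_card hB
  have hcol : Fintype.card (Fin k → Fin q) = q ^ k := by
    rw [Fintype.card_fun, Fintype.card_fin, Fintype.card_fin]
  have hne : Nonempty (Fin k → Fin q) := ⟨fun t => f t (fun _ => b0)⟩
  have hq : 1 ≤ q ^ k := by
    rw [← hcol]
    exact Fintype.card_pos
  rcases le_or_gt (q ^ k * n) (Fintype.card B) with hc | hc
  · exact large b0 ⟨0, Nat.pos_of_ne_zero hm⟩ g hg f hc
  · set d := Nat.clog 2 n with hd
    have hnd : n ≤ 2 ^ d := Nat.le_pow_clog (by norm_num) n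
    have hdn : d ≤ n := Nat.clog_le_of_le_pow Nat.lt_two_pow_self.le
    have h2d : 2 ^ d ≤ 2 * n := by
      rcases Nat.lt_or_ge 1 n with h | h
      · have h3 := Nat.pow_pred_clog_lt_self (b := 2) (by norm_num) h
        have hd0 : d ≠ 0 := by
          intro h0
          rw [h0] at hnd
          simp at hnd
          omega
        have h4 : 2 ^ d = 2 * 2 ^ (d - 1) := by
          rw [← pow_succ']
          congr 1
          omega
        rw [h4]
        have h5 : 2 ^ (d - 1) < n := h3
        omega
      · have : n = 1 := by omega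
        rw [hd, this]
        simp
    set K := (2 * q ^ k) ^ (2 ^ d) with hK
    have h5 : 2 ^ E ≤ q ^ k * n * m := by
      have h6 : (2 : ℕ) ^ 2 ^ E ≤ 2 ^ (q ^ k * n * m) := by
        calc (2 : ℕ) ^ 2 ^ E ≤ Fintype.card B ^ m := hN
          _ ≤ (2 ^ (q ^ k * n)) ^ m := by
            apply Nat.pow_le_pow_left
            exact (hc.trans Nat.lt_two_pow_self).le
          _ = 2 ^ (q ^ k * n * m) := by rw [← pow_mul]
      exact (Nat.pow_le_pow_iff_right (by norm_num)).1 h6
    have h6 : 2 ^ (k * 2 ^ r) * (d * K) ≤ m := by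
      have h7 := (numbers (T := k * 2 ^ r) hq hn hdn h2d hK).trans h5
      exact Nat.le_of_mul_le_mul_left h7 (by positivity)
    obtain ⟨X, c, hX, hXc⟩ := core hb g hg f (d := d) (K := K) le_rfl h6
    obtain ⟨Y, hYX, hYn⟩ := Finset.exists_subset_card_eq (hX ▸ hnd : n ≤ X.card)
    exact ⟨Y, c, hYn, fun t x hx => hXc t x (fun i => hYX (hx i))⟩

end Pool.Agent.Helper939_Con
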